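import Mathlib

open scoped ENNReal
open MeasureTheory Set

namespace Pool.Agent.Helper228.Gain2

/-- `e_n^{det-non}(S, F)`: infimum over `n` continuous linear functionals `L` and over all maps
`φ : ℝ^n → Y` of the worst case error `sup_{f ∈ F} ‖S f - φ (L f)‖`. -/
noncomputable def detErr {X Y : Type} [NormedAddCommGroup X] [NormedSpace ℝ X]
    [NormedAddCommGroup Y] [NormedSpace ℝ Y] (S : X →L[ℝ] Y) (F : Set X) (n : ℕ) : ℝ≥0∞ :=
  ⨅ (L : Fin n → X →L[ℝ] ℝ) (φ : (Fin n → ℝ) → Y), ⨆ f ∈ F, ‖S f - φ (fun i => L i f)‖ₑ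

/-- A randomized non-adaptive algorithm with `n` measurements: a probability space `Ω`, for each
`ω ∈ Ω` functionals `L ω 1, …, L ω n ∈ X'` and a map `φ ω : ℝ^n → Y`, such that
`ω ↦ ‖S f - A^ω f‖` is measurable for every `f ∈ F`. -/
structure RandAlg {X Y : Type} [NormedAddCommGroup X] [NormedSpace ℝ X]
    [NormedAddCommGroup Y] [NormedSpace ℝ Y] (S : X →L[ℝ] Y) (F : Set X) (n : ℕ) where
  /-- the sample space -/
  Ω : Type
  /-- its sigma algebra -/
  mΩ : MeasurableSpace Ω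
  /-- the probability measure -/
  P : Measure Ω
  prob : IsProbabilityMeasure P
  /-- the random functionals -/
  L : Ω → Fin n → X →L[ℝ] ℝ
  /-- the random maps -/
  φ : Ω → (Fin n → ℝ) → Y
  meas : ∀ f ∈ F, Measurable (fun ω => ‖S f - φ ω (fun i => L ω i f)‖)

/-- `e_n^{ran-non}(S, F)`: infimum over all randomized non-adaptive algorithms with `n`
measurements of the error `sup_{f ∈ F} E ‖S f - A^ω f‖`. -/
noncomputable def ranErr {X Y : Type} [NormedAddCommGroup X] [NormedSpace ℝ X]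
    [NormedAddCommGroup Y] [NormedSpace ℝ Y] (S : X →L[ℝ] Y) (F : Set X) (n : ℕ) : ℝ≥0∞ :=
  ⨅ A : RandAlg S F n, ⨆ f ∈ F,
    @lintegral A.Ω A.mΩ A.P (fun ω => ‖S f - A.φ ω (fun i => A.L ω i f)‖ₑ)

end Pool.Agent.Helper228.Gain2
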