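import Pool.Agent.Helper228.Gain.E
import Pool.Agent.Helper228.Gain2.Defs

open scoped ENNReal InnerProductSpace
open MeasureTheory Set

namespace Pool.Agent.Helper228.Gain2

open Pool.Agent.Helper228.Gain (BX FS ev emb emb_apply dl pre mem_pre FS_bound ev_apply)

/-- an algorithm with finitely many outcomes -/
theorem ran_upper {X Y : Type} [NormedAddCommGroup X] [NormedSpace ℝ X]
    [NormedAddCommGroup Y] [NormedSpace ℝ Y] {S : X →L[ℝ] Y} {F : Set X} {n : ℕ} {B : ℝ}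
    {Ω : Type} [Fintype Ω] [Nonempty Ω] {κ : Type} [Fintype κ] (hκ : Fintype.card κ ≤ n)
    (L : Ω → κ → X →L[ℝ] ℝ) (φ : Ω → (κ → ℝ) → Y)
    (h : ∀ f ∈ F, ∑ ω, ‖S f - φ ω (fun i => L ω i f)‖ ≤ Fintype.card Ω * B) :
    ranErr S F n ≤ ENNReal.ofReal B := by
  classical
  obtain ⟨e⟩ : Nonempty (κ ↪ Fin n) := by
    rw [Function.Embedding.nonempty_iff_card_le]; simpa using hκ
  let mΩ : MeasurableSpace Ω := ⊤
  set P : Measure Ω := (Fintype.card Ω : ℝ≥0∞)⁻¹ • Measure.count with hP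
  have hcard : (Fintype.card Ω : ℝ≥0∞) ≠ 0 := by
    simp [Fintype.card_ne_zero]
  have hprob : IsProbabilityMeasure P := by
    constructor
    rw [hP, Measure.smul_apply, Measure.count_univ, smul_eq_mul]
    have : ENat.card Ω = (Fintype.card Ω : ℕ∞) := by simp
    rw [this]
    exact ENNReal.inv_mul_cancel hcard (by simp)
  let L' : Ω → Fin n → X →L[ℝ] ℝ := fun ω j =>
    if hj : ∃ i, e i = j then L ω (Classical.choose hj) else 0
  have hL' : ∀ ω i, L' ω (e i) = L ω i := by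
    intro ω i
    have hj : ∃ i', e i' = e i := ⟨i, rfl⟩
    simp only [L', dif_pos hj]
    congr 1
    exact e.injective (Classical.choose_spec hj)
  let φ' : Ω → (Fin n → ℝ) → Y := fun ω y => φ ω (fun i => y (e i))
  have hval : ∀ ω (f : X), φ' ω (fun j => L' ω j f) = φ ω (fun i => L ω i f) := by
    intro ω f
    simp only [φ', hL']
  have hmeas : ∀ f ∈ F, @Measurable Ω ℝ mΩ _ (fun ω => ‖S f - φ' ω (fun i => L' ω i f)‖) := by
    intro f _
    exact measurable_from_top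
  let A : RandAlg S F n := ⟨Ω, mΩ, P, hprob, L', φ', hmeas⟩
  refine iInf_le_of_le A (iSup₂_le (fun f hf => ?_))
  show @lintegral Ω mΩ P (fun ω => ‖S f - φ' ω (fun i => L' ω i f)‖ₑ) ≤ _
  simp only [hval]
  rw [hP, lintegral_smul_measure, lintegral_count, tsum_fintype, smul_eq_mul]
  have h1 : ∑ ω, ‖S f - φ ω (fun i => L ω i f)‖ₑ
      = ENNReal.ofReal (∑ ω, ‖S f - φ ω (fun i => L ω i f)‖) := by
    rw [ENNReal.ofReal_sum_of_nonneg (fun _ _ => norm_nonneg _)]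
    exact Finset.sum_congr rfl (fun ω _ => (ofReal_norm _).symm)
  rw [h1]
  have h2 : ENNReal.ofReal (∑ ω, ‖S f - φ ω (fun i => L ω i f)‖)
      ≤ (Fintype.card Ω : ℝ≥0∞) * ENNReal.ofReal B := by
    refine (ENNReal.ofReal_le_ofReal (h f hf)).trans ?_
    rw [ENNReal.ofReal_mul (by positivity)]
    simp
  calc (Fintype.card Ω : ℝ≥0∞)⁻¹ * ENNReal.ofReal (∑ ω, ‖S f - φ ω (fun i => L ω i f)‖)
      ≤ (Fintype.card Ω : ℝ≥0∞)⁻¹ * ((Fintype.card Ω : ℝ≥0∞) * ENNReal.ofReal B) := by gcongr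
    _ = ENNReal.ofReal B := by
        rw [← mul_assoc, ENNReal.inv_mul_cancel hcard (by simp), one_mul]

/-- the block class -/
def AS (σ r : ℝ) (m : ℕ) : Set (ℕ → ℝ) :=
  {x | ∃ g h : ℕ → ℝ, (∀ l, m ≤ l → g l = 0 ∧ h l = 0) ∧
    ∑ l ∈ Finset.range m, |g l| ≤ 1 ∧ ∑ l ∈ Finset.range m, (h l) ^ 2 ≤ r ^ 2 ∧
    ∀ l, x l = σ * (g l + h l)}

theorem mem_FS {σ r : ℕ → ℝ} {m : ℕ → ℕ} {f : BX} :
    f ∈ FS σ r m ↔ ∀ i, (fun l => f (i, l)) ∈ AS (σ i) (r i) (m i) := Iff.rfl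

/-- finite-outcome algorithm for one block -/
structure BlockAlg (m : ℕ) (A : Set (ℕ → ℝ)) (n : ℕ) (ε p B : ℝ) : Type 1 where
  Ω : Type
  fin : Fintype Ω
  ne : Nonempty Ω
  κ : Type
  finκ : Fintype κ
  hκ : Fintype.card κ ≤ n
  c : Ω → κ → ℕ → ℝ
  est : Ω → (κ → ℝ) → ℕ → ℝ
  good : ∀ x ∈ A, ∃ Fail : Set Ω, ((Nat.card Fail : ℝ) ≤ Nat.card Ω * p) ∧
    ∀ ω, ∀ q < m, |x q - est ω (fun i => ∑ q' ∈ Finset.range m, c ω i q' * x q') q|
       ≤ ε + Fail.indicator (fun _ => B) ω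

/-- relaxing the parameters -/
def BlockAlg.mono {m : ℕ} {A : Set (ℕ → ℝ)} {n n' : ℕ} {ε ε' p p' B B' : ℝ}
    (a : BlockAlg m A n ε p B) (hn : n ≤ n') (hε : ε ≤ ε') (hp : p ≤ p') (hB : B ≤ B') :
    BlockAlg m A n' ε' p' B' where
  Ω := a.Ω
  fin := a.fin
  ne := a.ne
  κ := a.κ
  finκ := a.finκ
  hκ := a.hκ.trans hn
  c := a.c
  est := a.est
  good := by
    intro x hx
    obtain ⟨Fail, h1, h2⟩ := a.good x hx
    refine ⟨Fail, h1.trans (by gcongr), fun ω q hq => (h2 ω q hq).trans ?_⟩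
    refine add_le_add hε ?_
    by_cases h : ω ∈ Fail
    · rw [Set.indicator_of_mem h, Set.indicator_of_mem h]; exact hB
    · rw [Set.indicator_of_notMem h, Set.indicator_of_notMem h]

theorem card_coord {J : ℕ} {Ω : Fin J → Type} [∀ l, Fintype (Ω l)] [∀ l, Nonempty (Ω l)]
    (l : Fin J) (F : Set (Ω l)) {p : ℝ} (hF : (Nat.card F : ℝ) ≤ Nat.card (Ω l) * p) (B : ℝ)
    (hB : 0 ≤ B) :
    ∑ ω : (∀ l, Ω l), F.indicator (fun _ => B) (ω l) ≤ Fintype.card (∀ l, Ω l) * (B * p) := by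
  classical
  have h1 : ∑ ω : (∀ l, Ω l), F.indicator (fun _ => B) (ω l)
      = (((Finset.univ : Finset (∀ l, Ω l)).filter (fun ω => ω l ∈ F)).card : ℝ) * B := by
    rw [← nsmul_eq_mul, ← Finset.sum_const, Finset.sum_filter]
    refine Finset.sum_congr rfl (fun ω _ => ?_)
    by_cases h : ω l ∈ F
    · rw [Set.indicator_of_mem h, if_pos h]
    · rw [Set.indicator_of_notMem h, if_neg h]
  have h2 : (Finset.univ : Finset (∀ l, Ω l)).filter (fun ω => ω l ∈ F)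
      = Fintype.piFinset (Function.update (fun l' => (Finset.univ : Finset (Ω l'))) l F.toFinset) := by
    ext ω
    simp only [Finset.mem_filter, Finset.mem_univ, true_and, Fintype.mem_piFinset]
    constructor
    · intro h l'
      by_cases hl : l' = l
      · subst hl; simpa using h
      · rw [Function.update_of_ne hl]; exact Finset.mem_univ _
    · intro h
      have := h l
      simpa using this
  have h3 : (((Finset.univ : Finset (∀ l, Ω l)).filter (fun ω => ω l ∈ F)).card : ℝ)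
      = F.toFinset.card * ∏ l' ∈ Finset.univ \ {l}, (Fintype.card (Ω l') : ℝ) := by
    rw [h2, Fintype.card_piFinset]
    push_cast
    have h4 : ∀ l', ((Function.update (fun l' => (Finset.univ : Finset (Ω l'))) l F.toFinset l').card : ℝ)
        = Function.update (fun l' => (Fintype.card (Ω l') : ℝ)) l (F.toFinset.card : ℝ) l' := by
      intro l'
      by_cases hl : l' = l
      · subst hl; simp
      · rw [Function.update_of_ne hl, Function.update_of_ne hl]; rfl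
    rw [Finset.prod_congr rfl (fun l' _ => h4 l')]
    rw [Finset.prod_update_of_mem (Finset.mem_univ l)]
  have h5 : (Fintype.card (∀ l, Ω l) : ℝ)
      = Fintype.card (Ω l) * ∏ l' ∈ Finset.univ \ {l}, (Fintype.card (Ω l') : ℝ) := by
    rw [Fintype.card_pi]
    push_cast
    rw [← Finset.mul_prod_erase Finset.univ _ (Finset.mem_univ l)]
    congr 1
    refine Finset.prod_congr ?_ (fun _ _ => rfl)
    ext x; simp
  have h6 : (F.toFinset.card : ℝ) ≤ Fintype.card (Ω l) * p := by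
    rw [Nat.card_eq_fintype_card, Nat.card_eq_fintype_card] at hF
    rw [Set.toFinset_card]
    exact hF
  rw [h1, h3, h5]
  have h7 : (0:ℝ) ≤ ∏ l' ∈ Finset.univ \ {l}, (Fintype.card (Ω l') : ℝ) :=
    Finset.prod_nonneg (fun _ _ => Nat.cast_nonneg _)
  calc (F.toFinset.card : ℝ) * (∏ l' ∈ Finset.univ \ {l}, (Fintype.card (Ω l') : ℝ)) * B
      ≤ (Fintype.card (Ω l) * p) * (∏ l' ∈ Finset.univ \ {l}, (Fintype.card (Ω l') : ℝ)) * B := by
        gcongr
    _ = _ := by ring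

theorem ran_multi {σ r : ℕ → ℝ} {m : ℕ → ℕ} (hσ : ∀ i, 0 ≤ σ i) (hr0 : ∀ i, 0 < r i)
    (hr1 : ∀ i, r i ≤ 1) {J : ℕ} {nn : Fin J → ℕ} {ε τ : ℝ} {p B : Fin J → ℝ}
    (hε : 0 ≤ ε) (hB : ∀ l, 0 ≤ B l)
    (a : ∀ l : Fin J, BlockAlg (m l) (AS (σ l) (r l) (m l)) (nn l) ε (p l) (B l))
    {n : ℕ} (hn : ∑ l, nn l ≤ n) (hτ0 : 0 ≤ τ) (hτ : ∀ i, J ≤ i → 2 * σ i ≤ τ) :
    ranErr (ContinuousLinearMap.id ℝ BX) (FS σ r m) n
      ≤ ENNReal.ofReal (ε + ∑ l, B l * p l + τ) := by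
  classical
  let Ω : Type := ∀ l : Fin J, (a l).Ω
  let i1 : ∀ l, Fintype (a l).Ω := fun l => (a l).fin
  have i2 : ∀ l, Nonempty (a l).Ω := fun l => (a l).ne
  let i3 : ∀ l, Fintype (a l).κ := fun l => (a l).finκ
  let κ : Type := Σ l : Fin J, (a l).κ
  let i4 : Fintype Ω := Pi.instFintype
  let i5 : Fintype κ := inferInstance
  have i6 : Nonempty Ω := inferInstance
  have hκ : Fintype.card κ ≤ n := by
    rw [Fintype.card_sigma]
    exact (Finset.sum_le_sum (fun l _ => (a l).hκ)).trans hn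
  let L : Ω → κ → BX →L[ℝ] ℝ := fun ω li =>
    ∑ q ∈ Finset.range (m li.1), (a li.1).c (ω li.1) li.2 q • ev ((li.1 : ℕ), q)
  let φ : Ω → (κ → ℝ) → BX := fun ω y => emb (pre m J) (fun q =>
    if h : q.1 < J then (a ⟨q.1, h⟩).est (ω ⟨q.1, h⟩) (fun i => y ⟨⟨q.1, h⟩, i⟩) q.2 else 0)
  refine ran_upper hκ L φ (fun f hf => ?_)
  have hf' := mem_FS.1 hf
  choose Fail hF1 hF2 using fun l : Fin J => (a l).good _ (hf' l)
  have hL : ∀ (ω : Ω) (l : Fin J) (i : (a l).κ), L ω ⟨l, i⟩ f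
      = ∑ q' ∈ Finset.range (m l), (a l).c (ω l) i q' * f ((l:ℕ), q') := by
    intro ω l i
    simp only [L, _root_.sum_apply, _root_.smul_apply, ev_apply, smul_eq_mul]
  have herr : ∀ ω : Ω, ‖f - φ ω (fun i => L ω i f)‖
      ≤ ε + τ + ∑ l, (Fail l).indicator (fun _ => B l) (ω l) := by
    intro ω
    have hs0 : ∀ l : Fin J, 0 ≤ (Fail l).indicator (fun _ => B l) (ω l) := fun l =>
      Set.indicator_nonneg (fun _ _ => hB l) _
    have hs : 0 ≤ ∑ l, (Fail l).indicator (fun _ => B l) (ω l) :=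
      Finset.sum_nonneg (fun l _ => hs0 l)
    rw [BoundedContinuousFunction.norm_le (by positivity)]
    rintro ⟨i, q⟩
    rw [Real.norm_eq_abs]
    show |f (i, q) - φ ω (fun i => L ω i f) (i, q)| ≤ _
    have hφv : φ ω (fun i => L ω i f) (i, q)
        = if (i, q) ∈ pre m J then (if h : i < J then (a ⟨i, h⟩).est (ω ⟨i, h⟩)
          (fun i' => L ω ⟨⟨i, h⟩, i'⟩ f) q else 0) else 0 := emb_apply _ _ _
    rw [hφv]
    by_cases hiJ : i < J
    · by_cases hq : q < m i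
      · have h1 : (i, q) ∈ pre m J := mem_pre.2 ⟨hiJ, hq⟩
        rw [if_pos h1, dif_pos hiJ]
        have h2 := hF2 ⟨i, hiJ⟩ (ω ⟨i, hiJ⟩) q hq
        simp only [hL]
        refine h2.trans ?_
        have h3 : (Fail ⟨i, hiJ⟩).indicator (fun _ => B ⟨i, hiJ⟩) (ω ⟨i, hiJ⟩)
            ≤ ∑ l, (Fail l).indicator (fun _ => B l) (ω l) :=
          Finset.single_le_sum (f := fun l => (Fail l).indicator (fun _ => B l) (ω l))
            (fun l _ => hs0 l) (Finset.mem_univ _)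
        linarith
      · have h1 : (i, q) ∉ pre m J := fun h => hq (mem_pre.1 h).2
        rw [if_neg h1]
        obtain ⟨g1, h1, z1, s1, t1, e1⟩ := hf i
        rw [e1, (z1 q (not_lt.1 hq)).1, (z1 q (not_lt.1 hq)).2]
        simp only [add_zero, mul_zero, sub_zero, abs_zero]
        positivity
    · have h1 : (i, q) ∉ pre m J := fun h => hiJ (mem_pre.1 h).1
      rw [if_neg h1, sub_zero]
      have := (FS_bound hσ hr0 hr1 hf i q).trans (hτ i (not_lt.1 hiJ))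
      linarith
  show ∑ ω : Ω, ‖f - φ ω (fun i => L ω i f)‖ ≤ _
  calc ∑ ω : Ω, ‖f - φ ω (fun i => L ω i f)‖
      ≤ ∑ ω : Ω, (ε + τ + ∑ l, (Fail l).indicator (fun _ => B l) (ω l)) :=
        Finset.sum_le_sum (fun ω _ => herr ω)
    _ = Fintype.card Ω * (ε + τ) + ∑ l, ∑ ω : Ω, (Fail l).indicator (fun _ => B l) (ω l) := by
        rw [Finset.sum_add_distrib, Finset.sum_const, Finset.card_univ, nsmul_eq_mul,
          Finset.sum_comm]
    _ ≤ Fintype.card Ω * (ε + τ) + ∑ l, Fintype.card Ω * (B l * p l) := by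
        gcongr with l _
        exact card_coord (Ω := fun l => (a l).Ω) l (Fail l) (hF1 l) (B l) (hB l)
    _ = Fintype.card Ω * (ε + ∑ l, B l * p l + τ) := by
        rw [← Finset.mul_sum]; ring

end Pool.Agent.Helper228.Gain2
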