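import Pool.Agent.Helper228.Gain2.A

open scoped ENNReal InnerProductSpace
open MeasureTheory Set

namespace Pool.Agent.Helper228.Gain2

open Pool.Agent.Helper228.Gain

/-- full measurement of a block -/
noncomputable def fullAlg (m : ℕ) (A : Set (ℕ → ℝ)) : BlockAlg m A m 0 0 0 where
  Ω := Unit
  fin := inferInstance
  ne := inferInstance
  κ := Fin m
  finκ := inferInstance
  hκ := by simp
  c := fun _ i q => if q = (i:ℕ) then 1 else 0
  est := fun _ y q => if h : q < m then y ⟨q, h⟩ else 0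
  good := by
    intro x _
    refine ⟨∅, by simp, fun ω q hq => ?_⟩
    simp only [Set.indicator_empty, add_zero, dif_pos hq]
    rw [Finset.sum_eq_single q]
    · simp
    · intro b _ hb
      rw [if_neg hb, zero_mul]
    · intro h
      exact absurd (Finset.mem_range.2 hq) h

/-- approximation by zero -/
noncomputable def zeroAlg (m : ℕ) (A : Set (ℕ → ℝ)) (b : ℝ) (hA : ∀ x ∈ A, ∀ q, |x q| ≤ b) :
    BlockAlg m A 0 b 0 0 where
  Ω := Unit
  fin := inferInstance
  ne := inferInstance
  κ := Empty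
  finκ := inferInstance
  hκ := by simp
  c := fun _ _ _ => 0
  est := fun _ _ _ => 0
  good := by
    intro x hx
    refine ⟨∅, by simp, fun ω q _ => ?_⟩
    simp only [Set.indicator_empty, Pi.zero_apply, add_zero, sub_zero]
    exact hA x hx q

theorem AS_bound {σ r : ℝ} {m : ℕ} (hσ : 0 ≤ σ) (hr0 : 0 < r) (hr1 : r ≤ 1) :
    ∀ x ∈ AS σ r m, ∀ q, |x q| ≤ 2 * σ := by
  rintro x ⟨g, h, z, s, t, e⟩ q
  rw [e q, abs_mul, abs_of_nonneg hσ]
  have := FS_x_bound hr0.le hr1 z s t q
  nlinarith

/-- count sketch for one block -/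
noncomputable def sketchAlg (σ r : ℝ) (m R k : ℕ) (hσ : 0 < σ) (hr0 : 0 < r) (hr1 : r ≤ 1)
    (hR : 0 < R) (hk : 0 < k) :
    BlockAlg m (AS σ r m) (R * k) (σ * (128 / (k:ℝ) + Real.sqrt (128 / k) * r)) (m / 4 ^ R)
      (4 * σ) where
  Ω := Fin R → (Fin m → Fin k) × (Fin m → Bool)
  fin := inferInstance
  ne := by
    have : Nonempty (Fin k) := ⟨⟨0, hk⟩⟩
    infer_instance
  κ := Fin R × Fin k
  finκ := inferInstance
  hκ := by simp
  c := fun ω rb q => if h : q < m then
    (if (ω rb.1).1 ⟨q, h⟩ = rb.2 then sg ((ω rb.1).2 ⟨q, h⟩) else 0) else 0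
  est := fun ω y q => if h : q < m then
    σ * clip (med hR (fun i => sg ((ω i).2 ⟨q, h⟩) * y (i, (ω i).1 ⟨q, h⟩) / σ)) else 0
  good := by
    classical
    rintro x ⟨g, h, z, s, t, e⟩
    have hk0 : (0:ℝ) < k := by exact_mod_cast hk
    set ε : ℝ := 128 / (k:ℝ) + Real.sqrt (128 / k) * r with hε
    have hε0 : 0 ≤ ε := by positivity
    let Ω : Type := Fin R → (Fin m → Fin k) × (Fin m → Bool)
    let g' : Fin m → ℝ := fun l => g l
    let h' : Fin m → ℝ := fun l => h l
    have hg' : ∑ l, |g' l| ≤ 1 := by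
      rw [← Finset.sum_range (fun l => |g l|)]; exact s
    have hh' : ∑ l, (h' l) ^ 2 ≤ r ^ 2 := by
      rw [← Finset.sum_range (fun l => (h l) ^ 2)]; exact t
    let Bad : Fin m → Finset ((Fin m → Fin k) × (Fin m → Bool)) := fun l =>
      (Finset.univ.filter (fun ω => ε < |noise l (fun l => g' l + h' l) ω|))
    have hBad : ∀ l, 64 * ((Bad l).card : ℝ) ≤ Fintype.card ((Fin m → Fin k) × (Fin m → Bool)) :=
      fun l => bad_card hk l g' h' hr0 hg' hh'
    let Fl : Fin m → Finset Ω := fun l => Finset.univ.filter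
      (fun ω => R ≤ 2 * (Finset.univ.filter (fun i => ω i ∈ Bad l)).card)
    have hFl : ∀ l, ((Fl l).card : ℝ) * 4 ^ R ≤ Fintype.card Ω :=
      fun l => chernoff (Bad l) (hBad l) R
    let Fail : Finset Ω := Finset.univ.biUnion Fl
    have hFail : (Fail.card : ℝ) ≤ Fintype.card Ω * (m / 4 ^ R) := by
      have h1 : (Fail.card : ℝ) ≤ ∑ l : Fin m, ((Fl l).card : ℝ) := by
        exact_mod_cast Finset.card_biUnion_le
      have h2 : ∀ l, ((Fl l).card : ℝ) ≤ Fintype.card Ω / 4 ^ R := fun l => by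
        rw [le_div_iff₀ (by positivity)]; exact hFl l
      refine h1.trans ((Finset.sum_le_sum (fun l _ => h2 l)).trans (le_of_eq ?_))
      rw [Finset.sum_const, Finset.card_univ, Fintype.card_fin, nsmul_eq_mul]
      ring
    have hL2 : ∀ (ω : Ω) (i : Fin R) (l : Fin m),
        sg ((ω i).2 l) * (∑ q' ∈ Finset.range m, (if h : q' < m then
          (if (ω i).1 ⟨q', h⟩ = (ω i).1 l then sg ((ω i).2 ⟨q', h⟩) else 0) else 0) * x q') / σ
          = (g' l + h' l) + noise l (fun l => g' l + h' l) (ω i) := by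
      intro ω i l
      refine Eq.trans ?_ (sketch_eq l (fun l => g' l + h' l) (ω i))
      rw [mul_div_assoc]
      congr 1
      rw [Finset.sum_div, Finset.sum_range]
      refine Finset.sum_congr rfl (fun l' _ => ?_)
      rw [dif_pos l'.2]
      split_ifs with h1
      · rw [e]
        simp only [g', h']
        field_simp
      · simp
    have hx : ∀ l : Fin m, |g' l + h' l| ≤ 2 := fun l =>
      FS_x_bound hr0.le hr1 z s t l
    refine ⟨(Fail : Set Ω), ?_, ?_⟩
    · rw [Nat.card_eq_fintype_card, Nat.card_eq_fintype_card]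
      have h1 : Fintype.card (Fail : Set Ω) = Fail.card := by simp
      rw [h1]
      exact hFail
    · intro ω q hq
      simp only [dif_pos hq]
      have h4 : x q = σ * (g' ⟨q, hq⟩ + h' ⟨q, hq⟩) := e q
      rw [h4, ← mul_sub, abs_mul, abs_of_pos hσ]
      have h5 : |(g' ⟨q, hq⟩ + h' ⟨q, hq⟩) - clip (med hR (fun i => sg ((ω i).2 ⟨q, hq⟩) *
          (∑ q' ∈ Finset.range m, (if h : q' < m then
          (if (ω i).1 ⟨q', h⟩ = (ω i).1 ⟨q, hq⟩ then sg ((ω i).2 ⟨q', h⟩) else 0) else 0) * x q')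
            / σ))| ≤ ε + (if ω ∈ Fail then 4 else 0) := by
        rw [abs_sub_comm]
        simp only [hL2]
        by_cases hF : ω ∈ Fail
        · rw [if_pos hF]
          have := clip_bound (a := med hR (fun i => g' ⟨q, hq⟩ + h' ⟨q, hq⟩
            + noise ⟨q, hq⟩ (fun l => g' l + h' l) (ω i))) (hx ⟨q, hq⟩)
          linarith
        · rw [if_neg hF, add_zero]
          refine clip_close (hx ⟨q, hq⟩) (med_close hR _ _ _ ?_)
          have h6 : ω ∉ Fl ⟨q, hq⟩ := fun h => hF (Finset.mem_biUnion.2 ⟨_, Finset.mem_univ _, h⟩)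
          simp only [Fl, Finset.mem_filter, Finset.mem_univ, true_and, not_le] at h6
          refine lt_of_le_of_lt (le_of_eq ?_) h6
          congr 2
          ext i
          simp only [Bad, Finset.mem_filter, Finset.mem_univ, true_and, add_sub_cancel_left]
      refine (mul_le_mul_of_nonneg_left h5 hσ.le).trans (le_of_eq ?_)
      by_cases hF : ω ∈ Fail
      · rw [if_pos hF, Set.indicator_of_mem (show ω ∈ (Fail : Set Ω) from hF)]
        ring
      · rw [if_neg hF, Set.indicator_of_notMem (show ω ∉ (Fail : Set Ω) from hF)]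
        ring

end Pool.Agent.Helper228.Gain2
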