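import Pool.Agent.Helper228.Gain2.B

open scoped ENNReal InnerProductSpace
open MeasureTheory Set

namespace Pool.Agent.Helper228.Gain2

open Pool.Agent.Helper228.Gain (BX FS FS_convex FS_symm FS_bound det_bound)

/-- block dimensions `2^(4^(i+1))` -/
def mB (i : ℕ) : ℕ := 2 ^ (4 ^ (i+1))
/-- information thresholds `2^(2^i)` -/
def NB (i : ℕ) : ℕ := 2 ^ (2 ^ i)
/-- block weights `4^(-i)` -/
noncomputable def sB (i : ℕ) : ℝ := (1/4) ^ i
/-- radii of the euclidean balls -/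
noncomputable def rB (i : ℕ) : ℝ := Real.sqrt ((NB i : ℝ) / mB i)

theorem mB_pos (i : ℕ) : 0 < mB i := by unfold mB; positivity
theorem NB_pos (i : ℕ) : 0 < NB i := by unfold NB; positivity
theorem sB_pos (i : ℕ) : 0 < sB i := by unfold sB; positivity
theorem sB_le_one (i : ℕ) : sB i ≤ 1 := by
  unfold sB; exact pow_le_one₀ (by norm_num) (by norm_num)
theorem sB_anti : Antitone sB := fun a b hab =>
  pow_le_pow_of_le_one (by norm_num) (by norm_num) hab

theorem quarter (i : ℕ) : 4 * NB i ≤ mB i := by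
  unfold NB mB
  calc 4 * 2 ^ (2 ^ i) = 2 ^ (2 + 2 ^ i) := by rw [pow_add]; norm_num
    _ ≤ 2 ^ (4 ^ (i+1)) := by
      refine Nat.pow_le_pow_right (by norm_num) ?_
      have h1 : (4:ℕ) ^ (i+1) = 4 * (2 ^ i * 2 ^ i) := by
        rw [← mul_pow, pow_succ]; ring
      have h2 : 1 ≤ 2 ^ i := Nat.one_le_two_pow
      rw [h1]
      nlinarith

theorem mB_double (i : ℕ) : 2 * mB i ≤ mB (i+1) := by
  unfold mB
  calc 2 * 2 ^ (4 ^ (i+1)) = 2 ^ (4 ^ (i+1) + 1) := by ring
    _ ≤ 2 ^ (4 ^ (i+1+1)) := by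
      refine Nat.pow_le_pow_right (by norm_num) ?_
      have h2 : 1 ≤ 4 ^ (i+1) := Nat.one_le_pow _ _ (by norm_num)
      rw [pow_succ 4 (i+1)]
      omega

theorem sum_mB (j : ℕ) : ∑ i ∈ Finset.range (j+1), mB i ≤ 2 * mB j := by
  induction j with
  | zero => simp; omega
  | succ j ih =>
    rw [Finset.sum_range_succ]
    have := mB_double j
    omega

theorem sum_full (n J : ℕ) :
    2 * ∑ l ∈ Finset.range J, (if 4 * mB l ≤ n then mB l else 0) ≤ n := by
  induction J with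
  | zero => simp
  | succ J ih =>
    by_cases h : 4 * mB J ≤ n
    · have h1 : ∑ l ∈ Finset.range (J+1), (if 4 * mB l ≤ n then mB l else 0)
          ≤ ∑ l ∈ Finset.range (J+1), mB l := by
        refine Finset.sum_le_sum (fun l _ => ?_)
        split_ifs <;> omega
      have h2 := sum_mB J
      omega
    · rw [Finset.sum_range_succ, if_neg h, add_zero]
      exact ih

theorem rB_pos (i : ℕ) : 0 < rB i := by
  unfold rB
  have h1 : (0:ℝ) < mB i := by exact_mod_cast mB_pos i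
  have h2 : (0:ℝ) < NB i := by exact_mod_cast NB_pos i
  positivity

theorem rB_sq (i : ℕ) : (rB i) ^ 2 = (NB i : ℝ) / mB i := by
  unfold rB
  rw [Real.sq_sqrt (by positivity)]

theorem rB_quarter (i : ℕ) : (NB i : ℝ) / mB i ≤ 1 / 4 := by
  have hm : (0:ℝ) < mB i := by exact_mod_cast mB_pos i
  rw [div_le_div_iff₀ hm (by norm_num)]
  have : (4:ℝ) * NB i ≤ mB i := by exact_mod_cast quarter i
  linarith

theorem rB_le_one (i : ℕ) : rB i ≤ 1 := by
  have h1 := rB_sq i
  have h2 := rB_quarter i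
  have h3 := rB_pos i
  nlinarith

theorem exists_level {n : ℕ} (hn : 1 ≤ n) :
    ∃ i : ℕ, n ≤ 2 ^ (2 ^ i) ∧ ((2:ℝ) ^ i) ≤ 1 + 3 * Real.log n := by
  classical
  have hn1 : (1:ℝ) ≤ n := by exact_mod_cast hn
  have hlog : 0 ≤ Real.log n := Real.log_nonneg hn1
  have hex : ∃ i, n ≤ 2 ^ (2 ^ i) := ⟨n, by
    have h1 : n < 2 ^ n := Nat.lt_two_pow_self
    have h2 : n ≤ 2 ^ n := h1.le
    calc n ≤ 2 ^ n := h2
      _ ≤ 2 ^ (2 ^ n) := Nat.pow_le_pow_right (by norm_num) h2⟩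
  refine ⟨Nat.find hex, Nat.find_spec hex, ?_⟩
  rcases Nat.eq_zero_or_pos (Nat.find hex) with h0 | h0
  · rw [h0]
    simp only [pow_zero]
    linarith
  · obtain ⟨j, hj⟩ : ∃ j, Nat.find hex = j + 1 := ⟨Nat.find hex - 1, by omega⟩
    have h1 : ¬ (n ≤ 2 ^ (2 ^ j)) := Nat.find_min hex (by omega)
    rw [not_le] at h1
    rw [hj]
    have h2 : ((2:ℝ) ^ (2 ^ j)) < n := by exact_mod_cast h1
    have h3 : Real.log ((2:ℝ) ^ (2 ^ j)) < Real.log n := Real.log_lt_log (by positivity) h2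
    rw [Real.log_pow] at h3
    push_cast at h3
    have h4 := Real.log_two_gt_d9
    have h5 : (0:ℝ) < 2 ^ j := by positivity
    rw [pow_succ]
    nlinarith

theorem r_bound {n l : ℕ} (hn : 1 ≤ n) (h : n < 4 * mB l) :
    (rB l) ^ 2 ≤ 4 / n * Real.exp (Real.sqrt (Real.log n)) := by
  have hn1 : (1:ℝ) ≤ n := by exact_mod_cast hn
  have hn0 : (0:ℝ) < n := by linarith
  set a : ℝ := (2:ℝ) ^ l with ha
  have ha1 : 1 ≤ a := one_le_pow₀ (by norm_num)
  have hN : (NB l : ℝ) = Real.exp (Real.log 2 * a) := by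
    unfold NB
    push_cast
    rw [← Real.rpow_natCast (2:ℝ) (2 ^ l), Real.rpow_def_of_pos (by norm_num)]
    push_cast
    rfl
  have hm : (mB l : ℝ) = Real.exp (Real.log 2 * (4 * a ^ 2)) := by
    unfold mB
    push_cast
    rw [← Real.rpow_natCast (2:ℝ) (4 ^ (l+1)), Real.rpow_def_of_pos (by norm_num)]
    push_cast
    congr 2
    rw [ha, ← pow_mul, mul_comm l 2, pow_mul, pow_succ]
    norm_num
    ring
  have hnl : (n:ℝ) < 4 * mB l := by exact_mod_cast h
  have hlog4 : Real.log 4 = 2 * Real.log 2 := by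
    have : (4:ℝ) = 2 ^ 2 := by norm_num
    rw [this, Real.log_pow]; push_cast; ring
  have h1 : Real.log n < Real.log 4 + Real.log 2 * (4 * a ^ 2) := by
    have h2 := Real.log_lt_log hn0 hnl
    rw [hm, Real.log_mul (by norm_num) (Real.exp_pos _).ne', Real.log_exp] at h2
    exact h2
  have h4n : (4:ℝ) / n = Real.exp (Real.log 4 - Real.log n) := by
    rw [Real.exp_sub, Real.exp_log (by norm_num), Real.exp_log hn0]
  rw [rB_sq, hN, hm, ← Real.exp_sub, h4n, ← Real.exp_add]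
  apply Real.exp_le_exp.2
  have hl : 0 ≤ Real.log n := Real.log_nonneg hn1
  set s := Real.sqrt (Real.log n) with hs
  have hs2 : s ^ 2 = Real.log n := Real.sq_sqrt hl
  have hs0 : 0 ≤ s := Real.sqrt_nonneg _
  have hln1 := Real.log_two_gt_d9
  have hln2 := Real.log_two_lt_d9
  rcases le_or_gt a s with h5 | h5
  · have : Real.log 2 * a ≤ s := by nlinarith
    linarith
  · have h6 : Real.log 2 * a - Real.log 2 * (4 * a ^ 2) ≤ - (2 * a ^ 2) := by nlinarith
    have h7 : s ^ 2 ≤ a ^ 2 := by nlinarith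
    nlinarith

theorem det_ge {n i : ℕ} (h : n ≤ NB i) :
    ENNReal.ofReal (sB i / 2) ≤ detErr (ContinuousLinearMap.id ℝ BX) (FS sB rB mB) n := by
  have hm0 : (0:ℝ) < mB i := by exact_mod_cast mB_pos i
  have h1 : (n:ℝ) / mB i ≤ (NB i : ℝ) / mB i := by
    have : (n:ℝ) ≤ NB i := by exact_mod_cast h
    gcongr
  exact det_bound sB_pos (mB_pos i) (by rw [rB_sq]; exact h1) (h1.trans (rB_quarter i))

theorem det_le (n : ℕ) :
    detErr (ContinuousLinearMap.id ℝ BX) (FS sB rB mB) n ≤ ENNReal.ofReal 2 := by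
  refine iInf_le_of_le (fun _ => 0) (iInf_le_of_le (fun _ => 0) (iSup₂_le (fun f hf => ?_)))
  rw [← ofReal_norm]
  refine ENNReal.ofReal_le_ofReal ?_
  rw [ContinuousLinearMap.id_apply, sub_zero, BoundedContinuousFunction.norm_le (by norm_num)]
  rintro ⟨i, l⟩
  rw [Real.norm_eq_abs]
  have h1 := FS_bound (fun i => (sB_pos i).le) rB_pos rB_le_one hf i l
  have h2 := sB_le_one i
  linarith

theorem det_pos (n : ℕ) : 0 < detErr (ContinuousLinearMap.id ℝ BX) (FS sB rB mB) n := by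
  have h1 : n ≤ NB n := by
    unfold NB
    have h1 : n < 2 ^ n := Nat.lt_two_pow_self
    calc n ≤ 2 ^ n := h1.le
      _ ≤ 2 ^ (2 ^ n) := Nat.pow_le_pow_right (by norm_num) h1.le
  refine lt_of_lt_of_le ?_ (det_ge h1)
  rw [ENNReal.ofReal_pos]
  have := sB_pos n
  positivity

end Pool.Agent.Helper228.Gain2
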