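import Pool.Agent.Helper228.Gain2.C

open scoped ENNReal InnerProductSpace
open MeasureTheory Set

namespace Pool.Agent.Helper228.Gain2

open Pool.Agent.Helper228.Gain (BX FS FS_convex FS_symm FS_bound det_bound)

theorem block_exists {n J l : ℕ} (hn : 1 ≤ n) (hJ : 1 ≤ J) :
    Nonempty (BlockAlg (mB l) (AS (sB l) (rB l) (mB l))
      (if 4 * mB l ≤ n then mB l else n / (2 * J))
      (2200 * J / n * Real.exp (Real.sqrt (Real.log n) / 2)) (4 / n) 4) := by
  have hn1 : (1:ℝ) ≤ n := by exact_mod_cast hn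
  have hn0 : (0:ℝ) < n := by linarith
  have hJ1 : (1:ℝ) ≤ J := by exact_mod_cast hJ
  have hJ0 : (0:ℝ) < J := by linarith
  set s := Real.sqrt (Real.log n) with hs
  have hs0 : 0 ≤ s := Real.sqrt_nonneg _
  set e := Real.exp (s / 2) with he
  have he1 : 1 ≤ e := Real.one_le_exp (by positivity)
  have he2 : Real.exp s = e ^ 2 := by
    rw [he, ← Real.exp_nat_mul]; congr 1; push_cast; ring
  have hE0 : 0 ≤ 2200 * J / n * e := by positivity
  have hp0 : (0:ℝ) ≤ 4 / n := by positivity
  by_cases h : 4 * mB l ≤ n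
  · rw [if_pos h]
    exact ⟨(fullAlg (mB l) _).mono le_rfl hE0 hp0 (by norm_num)⟩
  · rw [if_neg h]
    push Not at h
    set R : ℕ := 4 ^ (l+1) with hR
    have hR0 : 0 < R := by positivity
    have hRr : (0:ℝ) < R := by exact_mod_cast hR0
    have hσR : sB l * R = 4 := by
      rw [hR]; unfold sB; push_cast
      rw [pow_succ, ← mul_assoc, ← mul_pow]; norm_num
    set k : ℕ := n / (2 * J * R) with hk
    have hσ0 := sB_pos l
    rcases Nat.eq_zero_or_pos k with hk0 | hk0
    · -- no measurements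
      have h1 : n < 2 * J * R := by
        rw [hk] at hk0
        rcases Nat.div_eq_zero_iff.1 hk0 with h2 | h2
        · exfalso
          have : 0 < 2 * J * R := by positivity
          omega
        · exact h2
      have h2 : (n:ℝ) < 2 * J * R := by exact_mod_cast h1
      refine ⟨(zeroAlg (mB l) _ (2 * sB l) (AS_bound hσ0.le (rB_pos l) (rB_le_one l))).mono
        (Nat.zero_le _) ?_ hp0 (by norm_num)⟩
      have h3 : 2 * sB l ≤ 16 * J / n := by
        rw [le_div_iff₀ hn0]
        calc 2 * sB l * n ≤ 2 * sB l * (2 * J * R) := by gcongr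
          _ = 4 * J * (sB l * R) := by ring
          _ = 16 * J := by rw [hσR]; ring
      refine h3.trans ?_
      calc 16 * (J:ℝ) / n ≤ 2200 * J / n := by gcongr; norm_num
        _ = 2200 * J / n * 1 := by ring
        _ ≤ _ := by gcongr
    · -- count sketch
      have hkr : (0:ℝ) < k := by exact_mod_cast hk0
      have hn2 : n < 2 * J * R * (k + 1) := Nat.lt_mul_div_succ n (by positivity)
      have hn3 : (n:ℝ) ≤ 4 * J * R * k := by
        have : n ≤ 4 * J * R * k := by
          have h0 : 2 * J * R * (k + 1) ≤ 2 * J * R * (k + k) := Nat.mul_le_mul_left _ (by omega)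
          calc n ≤ 2 * J * R * (k + k) := (hn2.le).trans h0
            _ = 4 * J * R * k := by ring
        exact_mod_cast this
      have h1k : 1 / (k:ℝ) ≤ 4 * J * R / n := by
        rw [div_le_div_iff₀ hkr hn0]; linarith
      have hcost : R * k ≤ n / (2 * J) := by
        rw [hk, ← Nat.div_div_eq_div_mul]
        exact Nat.mul_div_le _ _
      refine ⟨(sketchAlg (sB l) (rB l) (mB l) R k hσ0 (rB_pos l) (rB_le_one l) hR0 hk0).mono
        hcost ?_ ?_ ?_⟩
      · -- error
        have hσ1 := sB_le_one l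
        have t1 : sB l * (128 / (k:ℝ)) ≤ 2048 * J / n := by
          calc sB l * (128 / (k:ℝ)) = 128 * sB l * (1 / (k:ℝ)) := by ring
            _ ≤ 128 * sB l * (4 * J * R / n) := by gcongr
            _ = 512 * (sB l * R) * J / n := by ring
            _ = 2048 * J / n := by rw [hσR]; ring
        have hr := r_bound hn h
        rw [he2] at hr
        have hr0 := rB_pos l
        have t2 : sB l * (Real.sqrt (128 / k) * rB l) ≤ 91 * J / n * e := by
          refine le_of_sq_le_sq ?_ (by positivity)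
          rw [mul_pow, mul_pow, Real.sq_sqrt (by positivity)]
          calc sB l ^ 2 * (128 / (k:ℝ) * rB l ^ 2) = 128 * sB l ^ 2 * (1 / (k:ℝ)) * rB l ^ 2 := by ring
            _ ≤ 128 * sB l ^ 2 * (4 * J * R / n) * (4 / n * e ^ 2) := by gcongr
            _ = 2048 * (sB l * R) * sB l * J * (e ^ 2 / n ^ 2) := by ring
            _ = 8192 * sB l * J * (e ^ 2 / n ^ 2) := by rw [hσR]; ring
            _ ≤ 8192 * 1 * (J * J) * (e ^ 2 / n ^ 2) := by
                have : (J:ℝ) ≤ J * J := by nlinarith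
                gcongr
            _ ≤ 8281 * 1 * (J * J) * (e ^ 2 / n ^ 2) := by gcongr; norm_num
            _ = (91 * J / n * e) ^ 2 := by ring
        calc sB l * (128 / (k:ℝ) + Real.sqrt (128 / k) * rB l)
            = sB l * (128 / (k:ℝ)) + sB l * (Real.sqrt (128 / k) * rB l) := by ring
          _ ≤ 2048 * J / n + 91 * J / n * e := add_le_add t1 t2
          _ = 2048 * J / n * 1 + 91 * J / n * e := by ring
          _ ≤ 2048 * J / n * e + 91 * J / n * e := by gcongr
          _ = 2139 * J / n * e := by ring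
          _ ≤ 2200 * J / n * e := by gcongr; norm_num
      · -- failure probability
        have hm0 : (0:ℝ) < mB l := by exact_mod_cast mB_pos l
        have h5 : (mB l : ℝ) / 4 ^ R = 1 / mB l := by
          have h6 : (mB l : ℝ) = 2 ^ R := by
            unfold mB; push_cast; rfl
          have h7 : (4:ℝ) ^ R = 2 ^ R * 2 ^ R := by rw [← mul_pow]; norm_num
          rw [h6, h7]
          field_simp
        rw [h5, div_le_div_iff₀ hm0 hn0]
        have : (n:ℝ) < 4 * mB l := by exact_mod_cast h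
        linarith
      · have hσ1 := sB_le_one l
        linarith

theorem ran_le {n n' J : ℕ} (hn : 1 ≤ n) (hn' : n ≤ n') (hJ : 1 ≤ J) (hnJ : n ≤ 2 ^ J) :
    ranErr (ContinuousLinearMap.id ℝ BX) (FS sB rB mB) n'
      ≤ ENNReal.ofReal (2218 * J / n * Real.exp (Real.sqrt (Real.log n) / 2)) := by
  have hn1 : (1:ℝ) ≤ n := by exact_mod_cast hn
  have hn0 : (0:ℝ) < n := by linarith
  have hJ1 : (1:ℝ) ≤ J := by exact_mod_cast hJ
  set e := Real.exp (Real.sqrt (Real.log n) / 2) with he
  have he1 : 1 ≤ e := Real.one_le_exp (by positivity)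
  have hsum : ∑ l : Fin J, (if 4 * mB l ≤ n then mB l else n / (2 * J)) ≤ n' := by
    refine le_trans ?_ hn'
    rw [← Finset.sum_range (fun l => if 4 * mB l ≤ n then mB l else n / (2 * J))]
    have h1 := sum_full n J
    have h2 : ∑ l ∈ Finset.range J, (if 4 * mB l ≤ n then mB l else n / (2 * J))
        ≤ ∑ l ∈ Finset.range J, ((if 4 * mB l ≤ n then mB l else 0) + n / (2 * J)) := by
      refine Finset.sum_le_sum (fun l _ => ?_)
      by_cases hh : 4 * mB l ≤ n
      · rw [if_pos hh, if_pos hh]; exact Nat.le_add_right _ _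
      · rw [if_neg hh, if_neg hh]; exact Nat.le_add_left _ _
    rw [Finset.sum_add_distrib, Finset.sum_const, Finset.card_range, smul_eq_mul] at h2
    have h3 : 2 * (J * (n / (2 * J))) ≤ n := by
      calc 2 * (J * (n / (2 * J))) = (2 * J) * (n / (2 * J)) := by ring
        _ ≤ n := Nat.mul_div_le _ _
    omega
  have hb := ran_multi (σ := sB) (r := rB) (m := mB) (fun i => (sB_pos i).le) rB_pos rB_le_one
    (J := J) (nn := fun l => if 4 * mB l ≤ n then mB l else n / (2 * J))
    (ε := 2200 * J / n * e) (τ := 2 / n) (p := fun _ => 4 / n) (B := fun _ => 4)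
    (by positivity) (fun _ => by norm_num)
    (fun l => Classical.choice (block_exists (l := l) hn hJ)) hsum (by positivity)
    (fun i hi => by
      have h1 : sB i ≤ sB J := sB_anti hi
      have h2 : sB J ≤ 1 / n := by
        unfold sB
        rw [one_div_pow]
        refine one_div_le_one_div_of_le hn0 ?_
        calc (n:ℝ) ≤ 2 ^ J := by exact_mod_cast hnJ
          _ ≤ 4 ^ J := by gcongr; norm_num
      calc 2 * sB i ≤ 2 * (1 / n) := by linarith
        _ = 2 / n := by ring)
  refine hb.trans (ENNReal.ofReal_le_ofReal ?_)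
  rw [Finset.sum_const, Finset.card_univ, Fintype.card_fin, nsmul_eq_mul]
  calc 2200 * J / n * e + J * (4 * (4 / n)) + 2 / n
      = 2200 * J / n * e + 16 * J / n * 1 + 2 * 1 / n * 1 := by ring
    _ ≤ 2200 * J / n * e + 16 * J / n * e + 2 * J / n * e := by gcongr
    _ = _ := by ring

theorem poly_exp {s J : ℝ} (hs : 0 ≤ s) (hJ0 : 0 ≤ J) (hJ : J ≤ 1 + 3 * s ^ 2) :
    J ^ 3 ≤ 432 ^ 3 * Real.exp (s / 2) := by
  have h1 : 1 + s / 12 ≤ Real.exp (s / 12) := by
    have := Real.add_one_le_exp (s / 12); linarith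
  have h2 : Real.exp (s / 2) = (Real.exp (s / 12)) ^ 6 := by
    rw [← Real.exp_nat_mul]; congr 1; push_cast; ring
  have h3 : J ≤ 432 * (1 + s / 12) ^ 2 := by nlinarith
  calc J ^ 3 ≤ (432 * (1 + s / 12) ^ 2) ^ 3 := pow_le_pow_left₀ hJ0 h3 3
    _ = 432 ^ 3 * (1 + s / 12) ^ 6 := by ring
    _ ≤ 432 ^ 3 * (Real.exp (s / 12)) ^ 6 := by gcongr
    _ = _ := by rw [h2]

theorem main_bound {n n' : ℕ} (hn : 1 ≤ n) (hn' : n ≤ n') :
    ranErr (ContinuousLinearMap.id ℝ BX) (FS sB rB mB) n'
      ≤ ENNReal.ofReal (4436 * 432 ^ 3 * Real.exp (Real.sqrt (Real.log n)) / n)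
        * detErr (ContinuousLinearMap.id ℝ BX) (FS sB rB mB) n := by
  have hn1 : (1:ℝ) ≤ n := by exact_mod_cast hn
  have hn0 : (0:ℝ) < n := by linarith
  obtain ⟨i, h1, h2⟩ := exists_level hn
  have hJ : 1 ≤ 2 ^ i := Nat.one_le_two_pow
  have hran := ran_le hn hn' hJ h1
  have hdet := det_ge (n := n) (i := i) h1
  set s := Real.sqrt (Real.log n) with hs
  have hs0 : 0 ≤ s := Real.sqrt_nonneg _
  have hs2 : s ^ 2 = Real.log n := Real.sq_sqrt (Real.log_nonneg hn1)
  set Jr : ℝ := (2:ℝ) ^ i with hJr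
  have hJr0 : 0 < Jr := by positivity
  have hcast : ((2 ^ i : ℕ) : ℝ) = Jr := by push_cast; rfl
  have hpe := poly_exp hs0 hJr0.le (by rw [hs2]; exact h2)
  have hes : Real.exp s = Real.exp (s / 2) * Real.exp (s / 2) := by
    rw [← Real.exp_add]; congr 1; ring
  have hσ : sB i = 1 / Jr ^ 2 := by
    unfold sB
    rw [hJr, one_div_pow, ← pow_mul, mul_comm i 2, pow_mul]; norm_num
  refine hran.trans ?_
  refine le_trans ?_ (mul_le_mul_right hdet _)
  rw [← ENNReal.ofReal_mul (by positivity)]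
  refine ENNReal.ofReal_le_ofReal ?_
  rw [hcast, hσ]
  have he0 : 0 < Real.exp (s / 2) := Real.exp_pos _
  have key : 2218 * Jr / n * Real.exp (s / 2)
      = 4436 * Jr ^ 3 * Real.exp (s / 2) / n * (1 / Jr ^ 2 / 2) := by
    field_simp
    ring
  rw [key]
  have h3 : 4436 * Jr ^ 3 * Real.exp (s / 2) ≤ 4436 * 432 ^ 3 * Real.exp s := by
    rw [hes]
    calc 4436 * Jr ^ 3 * Real.exp (s / 2)
        ≤ 4436 * (432 ^ 3 * Real.exp (s / 2)) * Real.exp (s / 2) := by gcongr
      _ = _ := by ring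
  gcongr

theorem exp_sqrt_le {δ : ℝ} (hδ : 0 < δ) {n : ℕ} (hn : 1 ≤ n) :
    Real.exp (Real.sqrt (Real.log n)) ≤ Real.exp (1 / (4 * δ)) * (n:ℝ) ^ δ := by
  have hn1 : (1:ℝ) ≤ n := by exact_mod_cast hn
  have hn0 : (0:ℝ) < n := by linarith
  rw [Real.rpow_def_of_pos hn0, ← Real.exp_add]
  apply Real.exp_le_exp.2
  set s := Real.sqrt (Real.log n) with hs
  have hs2 : s ^ 2 = Real.log n := Real.sq_sqrt (Real.log_nonneg hn1)
  rw [← hs2]
  have h1 : 1 / (4 * δ) + s ^ 2 * δ - s = (2 * δ * s - 1) ^ 2 / (4 * δ) := by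
    field_simp
    ring
  have h2 : 0 ≤ (2 * δ * s - 1) ^ 2 / (4 * δ) := by positivity
  linarith

end Pool.Agent.Helper228.Gain2
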